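import Mathlib

namespace Pool.Agent.Results.MP_4cb54f_co.NoSmallSymbolCount

/-- Admissible parameter sets `(v, r, c)` for double arrays, equivalently for triple arrays. -/
def Admissible (v r c : ℕ) : Prop :=
  2 ≤ r ∧ 2 ≤ c ∧ max r c < v ∧ 2 * v ≤ r * c ∧
  ∃ e : ℕ, v * e = r * c ∧ (r - 1) ∣ c * (e - 1) ∧ (c - 1) ∣ r * (e - 1)

/-- The core of the argument, over `ℤ`, for `r ≤ c`. -/
lemma core (v r c x a b : ℤ) (hr : 2 ≤ r) (hc : 2 ≤ c) (hrc : r ≤ c) (hvc : c < v) (hx : 1 ≤ x)
    (hv : v * (x + 1) = r * c) (ha : a * (c - 1) = r * x) (hb : b * (r - 1) = c * x)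
    (hw : v + 1 ≤ r + c - 1) : False := by
  have hc1 : 0 < c - 1 := by linarith
  have hr1 : 0 < r - 1 := by linarith
  have ha0 : 0 < a := by
    by_contra h
    have : a * (c - 1) ≤ 0 := mul_nonpos_of_nonpos_of_nonneg (by linarith) hc1.le
    have : 0 < r * x := by positivity
    linarith
  have hb0 : 0 < b := by
    by_contra h
    have : b * (r - 1) ≤ 0 := mul_nonpos_of_nonpos_of_nonneg (by linarith) hr1.le
    have : 0 < c * x := by positivity
    linarith
  -- `e = x + 1 < r`
  have her : x + 1 < r := by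
    by_contra h
    have h1 : r * c < v * (x + 1) := by nlinarith
    linarith
  -- `r < c`
  have hrc' : r < c := by
    rcases lt_or_eq_of_le hrc with h | h
    · exact h
    · exfalso
      subst h
      -- `(r - 1) ∣ x`
      have h1 : (r - 1) ∣ x := ⟨a - x, by linear_combination -ha⟩
      have := Int.le_of_dvd (by linarith) h1
      linarith
  -- `a ≤ x`
  have hax : a ≤ x := by
    by_contra h
    have h1 : r * x < a * (c - 1) := by nlinarith
    linarith
  set D : ℤ := a * b - x ^ 2 with hD
  have hrD : r * D = a * (b + x) := by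
    rw [hD]; linear_combination a * hb + x * ha
  have hcD : c * D = b * (a + x) := by
    rw [hD]; linear_combination b * ha + x * hb
  have hDpos : 0 < D := by
    by_contra h
    have h1 : r * D ≤ 0 := mul_nonpos_of_nonneg_of_nonpos (by linarith) (by linarith)
    have h2 : 0 < a * (b + x) := by positivity
    linarith
  set N : ℤ := r + c - 1 with hN
  have hND : N * D = (a + x) * (b + x) := by
    have : N * D = r * D + c * D - D := by rw [hN]; ring
    rw [this, hrD, hcD, hD]; ring
  set w : ℤ := N - v with hwdef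
  have hw1 : 1 ≤ w := by linarith
  set s : ℤ := D - x with hs
  -- `(x + 1) w D = N x s`
  have key : (x + 1) * w * D = N * x * s := by
    have h1 : a * b * N = r * c * D := by
      have h2 : r * c * D = r * (b * (a + x)) := by rw [← hcD]; ring
      -- use `r D = a (b + x)` times something
      have h3 : (a * b * N - r * c * D) * D = 0 := by
        have : a * b * (N * D) - (r * D) * (c * D) = 0 := by
          rw [hND, hrD, hcD]; ring
        linear_combination this
      rcases mul_eq_zero.mp h3 with h | h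
      · linarith
      · exact absurd h hDpos.ne'
    have h4 : (x + 1) * w * D = (x + 1) * N * D - r * c * D := by
      rw [hwdef]; linear_combination -D * hv
    have hab : a * b = D + x ^ 2 := by rw [hD]; ring
    rw [h4, ← h1, hab, hs]; ring
  have hspos : 0 < s := by
    by_contra h
    have hNpos : 0 < N := by linarith
    have h1 : N * x * s ≤ 0 := mul_nonpos_of_nonneg_of_nonpos (by positivity) (by linarith)
    have h2 : 0 < (x + 1) * w * D := by positivity
    linarith
  -- `s < a`
  have hsa : s < a := by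
    have h1 : (x + 2) * D ≤ r * D := mul_le_mul_of_nonneg_right (by linarith) hDpos.le
    rw [hrD] at h1
    have hab : a * b = D + x ^ 2 := by rw [hD]; ring
    have h2 : (x + 2) * D ≤ D + x ^ 2 + a * x := by linear_combination h1 + hab
    have hDs : D = x + s := by rw [hs]; ring
    rw [hDs] at h2
    by_contra h
    nlinarith
  have hsx : s < x := by linarith
  have hDs : D = x + s := by rw [hs]; ring
  -- divide out the gcd
  obtain ⟨g, X, σ, hg, hcop, hxg, hsg⟩ : ∃ g X σ : ℤ, 0 < g ∧ IsCoprime X σ ∧ x = g * X ∧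
      s = g * σ := by
    have hne : 0 < Int.gcd x s := Int.gcd_pos_of_ne_zero_left s (by linarith)
    refine ⟨Int.gcd x s, x / Int.gcd x s, s / Int.gcd x s, by exact_mod_cast hne, ?_, ?_, ?_⟩
    · rw [Int.isCoprime_iff_gcd_eq_one]
      exact Int.gcd_div_gcd_div_gcd hne
    · exact (Int.mul_ediv_cancel' (Int.gcd_dvd_left x s)).symm
    · exact (Int.mul_ediv_cancel' (Int.gcd_dvd_right x s)).symm
  have hXpos : 0 < X := by
    by_contra h
    have : g * X ≤ 0 := mul_nonpos_of_nonneg_of_nonpos hg.le (by linarith)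
    linarith
  have hσpos : 0 < σ := by
    by_contra h
    have : g * σ ≤ 0 := mul_nonpos_of_nonneg_of_nonpos hg.le (by linarith)
    linarith
  have hσX : σ < X := by
    by_contra h
    have : g * X ≤ g * σ := mul_le_mul_of_nonneg_left (by linarith) hg.le
    linarith
  set m : ℤ := X + σ with hm
  have hmpos : 0 < m := by linarith
  have hDm : D = g * m := by rw [hDs, hxg, hsg, hm]; ring
  have hcopXm : IsCoprime m X := by
    obtain ⟨u, t, hut⟩ := hcop
    exact ⟨t, u - t, by rw [hm]; linear_combination hut⟩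
  have hab : a * b = D + x ^ 2 := by rw [hD]; ring
  have hmr : m * (r - 1) = X * (a + x) := by
    have h1 : g * (m * (r - 1)) = g * (X * (a + x)) := by
      have h2 : (r - 1) * D = x * (a + x) := by linear_combination hrD + hab
      rw [hDm] at h2
      calc g * (m * (r - 1)) = (r - 1) * (g * m) := by ring
        _ = x * (a + x) := h2
        _ = g * (X * (a + x)) := by rw [hxg]; ring
    exact mul_left_cancel₀ hg.ne' h1
  have hmc : m * (c - 1) = X * (b + x) := by
    have h1 : g * (m * (c - 1)) = g * (X * (b + x)) := by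
      have h2 : (c - 1) * D = x * (b + x) := by linear_combination hcD + hab
      rw [hDm] at h2
      calc g * (m * (c - 1)) = (c - 1) * (g * m) := by ring
        _ = x * (b + x) := h2
        _ = g * (X * (b + x)) := by rw [hxg]; ring
    exact mul_left_cancel₀ hg.ne' h1
  obtain ⟨p, hp⟩ : m ∣ a + x := hcopXm.dvd_of_dvd_mul_left ⟨r - 1, hmr.symm⟩
  obtain ⟨q, hq⟩ : m ∣ b + x := hcopXm.dvd_of_dvd_mul_left ⟨c - 1, hmc.symm⟩
  have hrp : r - 1 = X * p := by
    apply mul_left_cancel₀ hmpos.ne'
    rw [hmr, hp]; ring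
  have hcq : c - 1 = X * q := by
    apply mul_left_cancel₀ hmpos.ne'
    rw [hmc, hq]; ring
  -- `p > g`, `q > g`
  have hpg : g < p := by
    have h1 : m * (p - g) = a - s := by
      have : m * g = x + s := by rw [mul_comm, ← hDm, hDs]
      linear_combination -hp - this
    by_contra h
    have h2 : m * (p - g) ≤ 0 := mul_nonpos_of_nonneg_of_nonpos hmpos.le (by linarith)
    linarith
  have hbx : x < b := by
    by_contra h
    have h1 : b * (r - 1) ≤ x * (r - 1) := mul_le_mul_of_nonneg_right (by linarith) hr1.le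
    have h2 : x * (r - 1) < c * x := by nlinarith
    linarith
  have hqg : g < q := by
    have h1 : m * (q - g) = b - s := by
      have : m * g = x + s := by rw [mul_comm, ← hDm, hDs]
      linear_combination -hq - this
    by_contra h
    have h2 : m * (q - g) ≤ 0 := mul_nonpos_of_nonneg_of_nonpos hmpos.le (by linarith)
    linarith
  have hNpq : N = 1 + X * (p + q) := by
    rw [hN]; linear_combination hrp + hcq
  have hNg : N * g = m * (p * q) := by
    apply mul_left_cancel₀ hmpos.ne'
    have h1 : N * (g * m) = m * p * (m * q) := by rw [← hDm, hND, hp, hq]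
    linear_combination h1
  have hewm : (x + 1) * w = p * q * (X * σ) := by
    apply mul_left_cancel₀ (mul_pos hg hmpos).ne'
    have h1 : (x + 1) * w * (g * m) = N * (g * X) * (g * σ) := by
      rw [← hDm, ← hxg, ← hsg]; exact key
    linear_combination h1 + g * X * σ * hNg
  -- `X ^ 2 * (p - g) * (q - g) = (x + 1) * (x - w)`
  have hXab : X ^ 2 * ((p - g) * (q - g)) = (x + 1) * (x - w) := by
    have h1 : g * (1 + X * (p + q)) = (X + σ) * (p * q) := by
      rw [← hNpq, ← hm, ← hNg]; ring
    have h2 : (x + 1) * (x - w) = (x + 1) * x - p * q * (X * σ) := by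
      rw [← hewm]; ring
    rw [h2, hxg]
    linear_combination -X * h1
  have hcop1 : IsCoprime (x + 1) (X ^ 2) := by
    apply IsCoprime.pow_right
    exact ⟨1, -g, by rw [hxg]; ring⟩
  obtain ⟨k, hk⟩ : (x + 1) ∣ (p - g) * (q - g) :=
    hcop1.dvd_of_dvd_mul_left ⟨x - w, hXab⟩
  have hkpos : 0 < k := by
    by_contra h
    have h1 : (x + 1) * k ≤ 0 := mul_nonpos_of_nonneg_of_nonpos (by linarith) (by linarith)
    have h2 : 0 < (p - g) * (q - g) := mul_pos (by linarith) (by linarith)
    linarith
  have hx1 : 0 < x + 1 := by linarith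
  -- `(x + 1) (g - k m) = g σ (p + q - g)`
  have hfin : (x + 1) * (g - k * m) = g * (σ * (p + q - g)) := by
    have h1 : g * (1 + X * (p + q)) = (X + σ) * (p * q) := by
      rw [← hNpq, ← hm, ← hNg]; ring
    have h3 : (x + 1) * (g - k * m) = (x + 1) * g - (p - g) * (q - g) * m := by
      rw [hk]; ring
    rw [h3, hm, hxg]
    linear_combination h1
  have hpos : 0 < g * (σ * (p + q - g)) := by
    apply mul_pos hg (mul_pos hσpos _)
    linarith
  have hgkm : 0 < g - k * m := by
    by_contra h
    have h1 : (x + 1) * (g - k * m) ≤ 0 :=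
      mul_nonpos_of_nonneg_of_nonpos hx1.le (by linarith)
    linarith
  have hcop2 : IsCoprime g (x + 1) := ⟨-X, 1, by rw [hxg]; ring⟩
  have hdvd : g ∣ g - k * m := hcop2.dvd_of_dvd_mul_left ⟨_, hfin⟩
  have hdvd2 : g ∣ k * m := (dvd_sub_right (dvd_refl g)).mp hdvd
  have := Int.le_of_dvd (mul_pos hkpos hmpos) hdvd2
  linarith

lemma no_admissible_le {v r c : ℕ} (h : Admissible v r c) (hrc : r ≤ c) : r + c ≤ v + 1 := by
  obtain ⟨hr, hc, hmax, h2v, e, hve, ⟨b, hb⟩, ⟨a, ha⟩⟩ := h
  by_contra hcon
  have he : 2 ≤ e := by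
    by_contra hlt
    have h1 : e ≤ 1 := by omega
    have h2 : v * e ≤ v * 1 := Nat.mul_le_mul_left v h1
    have h3 : 0 < v := by
      have := le_max_left r c
      omega
    omega
  obtain ⟨x, rfl⟩ : ∃ x, e = x + 1 := ⟨e - 1, by omega⟩
  obtain ⟨r', rfl⟩ : ∃ r', r = r' + 1 := ⟨r - 1, by omega⟩
  obtain ⟨c', rfl⟩ : ∃ c', c = c' + 1 := ⟨c - 1, by omega⟩
  simp only [Nat.add_sub_cancel] at hb ha
  have hvc : c' + 1 < v := lt_of_le_of_lt (le_max_right _ _) hmax
  refine core (v : ℤ) ((r' + 1 : ℕ) : ℤ) ((c' + 1 : ℕ) : ℤ) (x : ℤ) (a : ℤ) (b : ℤ)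
    (by exact_mod_cast hr) (by exact_mod_cast hc) (by exact_mod_cast hrc) (by exact_mod_cast hvc)
    (by omega) (by exact_mod_cast hve) ?_ ?_ ?_
  · have h1 : ((r' + 1) * x : ℤ) = c' * a := by exact_mod_cast ha
    push_cast
    linear_combination -h1
  · have h1 : ((c' + 1) * x : ℤ) = r' * b := by exact_mod_cast hb
    push_cast
    linear_combination -h1
  · push_cast
    omega

/-- There is no admissible parameter set `(v, r, c)` with `v < r + c - 1`. -/
theorem result : ∀ v r c : ℕ, Admissible v r c → r + c - 1 ≤ v := by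
  intro v r c h
  rcases le_total r c with hrc | hrc
  · have := no_admissible_le h hrc
    omega
  · have h' : Admissible v c r := by
      obtain ⟨hr, hc, hmax, h2v, e, hve, hb, ha⟩ := h
      exact ⟨hc, hr, by rw [max_comm]; exact hmax, by rw [mul_comm c r]; exact h2v, e,
        by rw [mul_comm c r]; exact hve, ha, hb⟩
    have := no_admissible_le h' hrc
    omega

end Pool.Agent.Results.MP_4cb54f_co.NoSmallSymbolCount
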